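import Pool.Agent.Helper3.HV.Bridge4

/-!
# A counterexample to Hertling's variance conjecture

The germ `f = x² y + y³ z + z¹⁰ + z⁵ t⁶ + t¹³` at the origin of `ℂ⁴` has an isolated critical
point with Milnor number `448`; its spectrum is symmetric about `2`, its smallest and largest
elements are `5/6` and `19/6`, and the sum of the squares of the distances to `2` is
`407681/4680 = 784/9 + 1/4680`, so that the variance is larger than `(19/6 - 5/6) / 12`.

The spectrum is defined through the V-filtration on the Gauss-Manin system and the Brieskorn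
lattice; see `Pool.Agent.Helper3.HV.PubDefs`.
-/

namespace Pool.Agent.Results.MP_a6db71_ag.HertlingCounterexample

open Pool.Agent.Helper3

/-- Hertling's variance conjecture is false. -/
theorem result :
    MvPolynomial.eval 0 HVP.fHert = 0 ∧
    (∃ ε : ℝ, 0 < ε ∧ ∀ z : Fin 4 → ℂ, ‖z‖ < ε →
      ((∀ i, MvPolynomial.eval z (MvPolynomial.pderiv i HVP.fHert) = 0) ↔ z = 0)) ∧
    HVP.milnorNumber (HVP.fHert : MvPowerSeries (Fin 4) ℂ) = 448 ∧
    ∃ s : Multiset ℚ,
      (∀ s', HVP.IsSpectrum (HVP.fHert : MvPowerSeries (Fin 4) ℂ) s' ↔ s' = s) ∧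
      Multiset.card s = 448 ∧
      s.map (fun a => 4 - a) = s ∧
      (5 / 6 ∈ s ∧ 19 / 6 ∈ s ∧ ∀ a ∈ s, 5 / 6 ≤ a ∧ a ≤ 19 / 6) ∧
      (s.map fun a => (a - 2) ^ 2).sum = 407681 / 4680 ∧
      (19 / 6 - 5 / 6) / 12 < (s.map fun a => (a - 2) ^ 2).sum / 448 := by
  refine ⟨Hert.iso_critical.1, Hert.iso_critical.2, Hert.Bridge.pub_milnor, Hert.spec448,
    Hert.Bridge.pub_spectrum, Hert.num_card, Hert.num_symm,
    ⟨Hert.num_min_mem, Hert.num_max_mem, Hert.num_bounds⟩, Hert.num_sq, ?_⟩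
  rw [Hert.num_sq]
  norm_num

end Pool.Agent.Results.MP_a6db71_ag.HertlingCounterexample
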